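import Pool.Agent.H5.BHG.Stmts2
import Pool.Agent.H59.PG.CMW

/-! # Row MXE of the board `bhg` -/

set_option autoImplicit false

namespace Pool.BHG

open Filter TMLib Pool.PG Pool.DPG

/-- Row MXE. -/
theorem mxe_thm : MXEStmt := by
  intro t g hg hM D B hD hB hDt hBt
  obtain ⟨v, hv, w, hw, h⟩ := hM D B
    (fun v hv => by
      have h := hD v hv
      rw [CMWx.len_cmp, CMWx.own_cmp] at h
      exact h)
    (fun w hw => by
      have h := hB w hw
      rw [CMWx.len_cmp, CMWx.own_cmp] at h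
      exact h) hDt hBt
  refine ⟨v, hv, w, hw, ?_⟩
  rw [CMWx.suc_cmp hg, CMWx.suc_cmp hg]
  exact h

end Pool.BHG
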